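import Pool.Agent.H97.HV.Targets3

/-!
# Row CLN of the board hov (MP_e37c09_lc): fewer than `δ` classes of small sets with parameters
-/

open Ordinal Cardinal Order Set
open scoped ZFSet

universe u

namespace Pool.Agent.H76.HV

open _root_.HD HD.PRK HD.HV

/-- the subsets of a small ordinal are enumerated by a small ordinal -/
theorem enum_sets {D : Cardinal.{u}} (hD : D.IsStrongLimit) {τ₀ : Ordinal.{u}}
    (hτ : τ₀ < D.ord) : ∃ τ < D.ord, ∃ e : Ordinal.{u} → Set (Iio τ₀), ∀ A, ∃ i < τ, e i = A := by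
  have h1 : τ₀.card < D := Cardinal.lt_ord.1 hτ
  have h2 : (2 : Cardinal.{u}) ^ τ₀.card < D := hD.two_power_lt h1
  refine ⟨((2 : Cardinal.{u}) ^ τ₀.card).ord, Cardinal.ord_lt_ord.2 h2, ?_⟩
  have h3 : #(Set (Iio τ₀)) = #(Iio ((2 : Cardinal.{u}) ^ τ₀.card).ord) := by
    rw [Cardinal.mk_set, Cardinal.mk_Iio_ordinal, Cardinal.mk_Iio_ordinal, Cardinal.card_ord,
      ← Cardinal.lift_two_power]
  obtain ⟨f⟩ := Cardinal.eq.1 h3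
  classical
  refine ⟨fun i => if h : i < ((2 : Cardinal.{u}) ^ τ₀.card).ord then f.symm ⟨i, h⟩ else ∅,
    fun A => ⟨(f A).1, (f A).2, ?_⟩⟩
  have h4 : (f A).1 < ((2 : Cardinal.{u}) ^ τ₀.card).ord := (f A).2
  simp only [dif_pos h4, Subtype.coe_eta, Equiv.symm_apply_apply]

theorem pf_CLN (h0 : T_PVA.{u}) (h1 : T_FPT.{u}) : T_CLN.{u} := by
  intro δ hext hA K hK hδK γ hfit μ hμ hωμ
  obtain ⟨D, hD, hDr, hDs, hD0⟩ : ∃ D : Cardinal.{u}, δ = D.ord ∧ D.IsRegular ∧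
      D.IsStrongLimit ∧ ℵ₀ < D := by
    obtain ⟨η, -, θ, j, h⟩ := HD.All.xa δ hext 0
    exact HD.All.xb δ η θ j h
  have hK0 : ℵ₀ < K := hD0.trans (Cardinal.ord_lt_ord.1 (hD ▸ hδK))
  obtain ⟨F, τ₁, hF, hτ₁, ⟨τ₀, hτ₀, g₀, hg1, hg2⟩, hfine⟩ :=
    h1 δ hext hA K hK hδK γ hfit μ hμ hωμ
  unfold PosX at hg2
  push Not at hg2
  obtain ⟨C₁, hC₁, hg3⟩ := hg2
  subst hD
  obtain ⟨τ, hτ, e, he⟩ := enum_sets hDs hτ₀
  refine ⟨τ, hτ, fun i x => ∃ k : Iio τ₀, k ∈ e i ∧ AgV F x (g₀ k.1) τ₁, fun Q hQ => ?_⟩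
  obtain ⟨a, ha, hQa⟩ := hQ
  -- the rank of the parameter
  set l : Ordinal.{u} := succ a.rank with hl
  have hlγ : l < γ := hfit.lim.succ_lt (ZFSet.mem_vonNeumann.1 ha)
  have hal : a ∈ V_ l := ZFSet.mem_vonNeumann.2 (lt_succ _)
  obtain ⟨R₀, hR₀, h⟩ := (Pool.Agent.H45.NF.pf_pa a Q).1 hQa
  set W : ZFSet.{u} := V_ (K.ord + ω + ω) with hW
  have hβ : Gd (K.ord + ω + ω) := by
    refine ⟨Ordinal.isSuccLimit_add _ Ordinal.isSuccLimit_omega0, ?_⟩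
    calc (ω : Ordinal.{u}) ≤ K.ord + ω := le_add_self
      _ < K.ord + ω + ω := by
        have h1 : (0 : Ordinal.{u}) < ω := Ordinal.omega0_pos
        exact lt_add_of_pos_right _ h1
  have hKβ : K.ord < K.ord + ω + ω := by
    have h1 : (0 : Ordinal.{u}) < ω := Ordinal.omega0_pos
    exact (lt_add_of_pos_right _ h1).trans_le le_self_add
  set R : ZFSet.{u} := ZFSet.sep (fun w => ∃ x a', w = ZFSet.pair x a' ∧ (x ∈ W ∧ a' ∈ V_ l) ∧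
      ∃ X, (∀ X', ZFSet.pair a' X' ∈ R₀ ↔ X' = X) ∧ x ∈ X) (ZFSet.prod W (V_ l)) with hR
  have hRm : ∀ x a', ZFSet.pair x a' ∈ R ↔ (x ∈ W ∧ a' ∈ V_ l) ∧
      ∃ X, (∀ X', ZFSet.pair a' X' ∈ R₀ ↔ X' = X) ∧ x ∈ X := by
    intro x a'
    rw [hR, ZFSet.mem_sep]
    constructor
    · rintro ⟨-, x', a'', h2, h3, h4⟩
      obtain ⟨rfl, rfl⟩ := ZFSet.pair_injective h2
      exact ⟨h3, h4⟩
    · rintro ⟨h3, h4⟩
      exact ⟨ZFSet.pair_mem_prod.2 h3, x, a', rfl, h3, h4⟩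
  have hRO : OD R := by
    refine OD.of_mem (P := fun v => ∃ x a', v 0 = ZFSet.pair x a' ∧ (x ∈ W ∧ a' ∈ V_ l) ∧
        ∃ X, (∀ X', ZFSet.pair a' X' ∈ R₀ ↔ X' = X) ∧ x ∈ X) ?_ fun v => ?_
    · refine DZ.ex (R := fun x v => ∃ a', v 0 = ZFSet.pair x a' ∧ (x ∈ W ∧ a' ∈ V_ l) ∧
          ∃ X, (∀ X', ZFSet.pair a' X' ∈ R₀ ↔ X' = X) ∧ x ∈ X)
          (DZ.ex ((loc_pair 2 1 0).dz.and (DZ.and (DZ.and ?_ ?_) (DZ.ex (DZ.and (DZ.all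
            (DZ.iff ?_ (DZ.eq 0 1))) (DZ.mem 2 0))))))
      · exact DZ.od (R := fun b v => v 1 ∈ b) (HD.NF.od_V _) (DZ.mem 2 0)
      · exact DZ.od (R := fun b v => v 0 ∈ b) (HD.NF.od_V l) (DZ.mem 1 0)
      · exact DZ.od (R := fun r v => ZFSet.pair (v 2) (v 0) ∈ r) hR₀ (loc_pmem 3 1 0).dz
    · rw [hR, ZFSet.mem_sep]
      refine ⟨fun h => ⟨?_, h⟩, fun h => h.2⟩
      obtain ⟨a', z, h1, h2, -⟩ := h
      rw [h1, ZFSet.pair_mem_prod]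
      exact h2
  obtain ⟨C₂, hC₂, hfin⟩ := hfine l hlγ R hRO (fun x a' hxa => ((hRm x a').1 hxa).1.2)
  have hC : Clb K.ord (C₁ ∩ C₂) := Pool.Agent.H54.CL.clb_inter hK0 hK hC₁ hC₂
  -- on the small sets of points of `C₂` membership in `Q` depends only on the class
  have hQR : ∀ x, SmS μ K.ord C₂ x → (ZFSet.pair x a ∈ R ↔ x ∈ Q) := by
    intro x hx
    rw [hRm]
    have hxW : x ∈ W := mem_V_of_sub (Pool.Agent.H97.PRK.sms_sub hx) (Gd.ord.2 hKβ)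
    constructor
    · rintro ⟨-, X, h2, h3⟩
      rw [← (h2 Q).1 ((h Q).2 rfl)] at h3
      exact h3
    · intro h2
      exact ⟨⟨hxW, hal⟩, Q, h, h2⟩
  have hdep : ∀ x y, SmS μ K.ord C₂ x → SmS μ K.ord C₂ y → AgV F x y τ₁ → (x ∈ Q ↔ y ∈ Q) := by
    intro x y hx hy hxy
    rw [← hQR x hx, ← hQR y hy]
    exact hfin x y hx hy hxy a
  obtain ⟨i, hi, hei⟩ := he {k : Iio τ₀ | ∃ y, SmS μ K.ord (C₁ ∩ C₂) y ∧ y ∈ Q ∧
    AgV F y (g₀ k.1) τ₁}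
  refine ⟨i, hi, C₁ ∩ C₂, hC, fun x hx => ?_⟩
  have hx1 := Pool.Agent.H97.PRK.sms_cl inter_subset_left hx
  have hx2 := Pool.Agent.H97.PRK.sms_cl inter_subset_right hx
  show x ∈ Q ↔ ∃ k : Iio τ₀, k ∈ e i ∧ AgV F x (g₀ k.1) τ₁
  rw [hei]
  constructor
  · intro hxQ
    obtain ⟨k, hk, hag⟩ := hg3 x hx1
    exact ⟨⟨k, hk⟩, ⟨x, hx, hxQ, hag⟩, hag⟩
  · rintro ⟨k, ⟨y, hy, hyQ, hya⟩, hxa⟩
    have hy2 := Pool.Agent.H97.PRK.sms_cl inter_subset_right hy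
    refine (hdep x y hx2 hy2 ?_).2 hyQ
    intro n hn b
    exact (hxa n hn b).trans (hya n hn b).symm

end Pool.Agent.H76.HV
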